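import Pool.Agent.Helper54.LM.Defs
import Pool.Agent.Helper99.LK.FS1

/-! # Module LFS: folded homomorphisms on an abelian group -/

namespace Pool.Agent.Helper54.LM

open Pool.Agent.Helper42.LS Pool.Agent.Helper42.LK

/-- the law, with signs -/
theorem LFS_law (W C : ℝ) (hW : 0 < W) (G : Type) [AddCommGroup G] (f : G → ℝ)
    (hf : ∀ k : G, 0 ≤ f k ∧ f k ≤ W / 2)
    (law : ∀ a b : G,
      (|f (a - b) - abs (f a - f b)| ≤ C ∧ |f (a + b) - min (f a + f b) (W - (f a + f b))| ≤ C) ∨
      (|f (a + b) - abs (f a - f b)| ≤ C ∧ |f (a - b) - min (f a + f b) (W - (f a + f b))| ≤ C))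
    (a b : G) (s t : ℝ) (hs : s = f a ∨ s = -f a) (ht : t = f b ∨ t = -f b) :
    (|f (a - b) - FS1_N W (s - t)| ≤ C ∧ |f (a + b) - FS1_N W (s + t)| ≤ C) ∨
    (|f (a + b) - FS1_N W (s - t)| ≤ C ∧ |f (a - b) - FS1_N W (s + t)| ≤ C) := by
  have ha := hf a
  have hb := hf b
  have e1 : FS1_N W (f a - f b) = |f a - f b| := by
    apply FS1_N_small W hW
    rw [abs_le]
    constructor <;> linarith
  have e2 : FS1_N W (f a + f b) = min (f a + f b) (W - (f a + f b)) :=
    FS1_N_fold W hW _ (by linarith) (by linarith)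
  have L := law a b
  rw [← e1, ← e2] at L
  rcases hs with hs | hs <;> rcases ht with ht | ht
  · rw [hs, ht]
    exact L
  · rw [hs, ht, sub_neg_eq_add, ← sub_eq_add_neg]
    rcases L with ⟨L1, L2⟩ | ⟨L1, L2⟩
    · exact Or.inr ⟨L2, L1⟩
    · exact Or.inl ⟨L2, L1⟩
  · have e3 : FS1_N W (-f a - f b) = FS1_N W (f a + f b) := by
      rw [← FS1_N_neg W hW (f a + f b)]
      congr 1
      ring
    have e4 : FS1_N W (-f a + f b) = FS1_N W (f a - f b) := by
      rw [← FS1_N_neg W hW (f a - f b)]
      congr 1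
      ring
    rw [hs, ht, e3, e4]
    rcases L with ⟨L1, L2⟩ | ⟨L1, L2⟩
    · exact Or.inr ⟨L2, L1⟩
    · exact Or.inl ⟨L2, L1⟩
  · have e3 : FS1_N W (-f a - -f b) = FS1_N W (f a - f b) := by
      rw [← FS1_N_neg W hW (f a - f b)]
      congr 1
      ring
    have e4 : FS1_N W (-f a + -f b) = FS1_N W (f a + f b) := by
      rw [← FS1_N_neg W hW (f a + f b)]
      congr 1
      ring
    rw [hs, ht, e3, e4]
    exact L

theorem st_LFS : ST_LFS := by
  classical
  refine ⟨31, by norm_num, ?_⟩
  intro W C hW hC G _ f hf hf0 hfneg law ⟨g, hg1, hg2⟩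
  set γ : ℝ := f g with hγdef
  have hγ : 62 * C < FS1_N W (2 * γ) := by
    rw [FS1_N_fold W hW (2 * γ) (by linarith [(hf g).1]) (by linarith [(hf g).2])]
    refine lt_min ?_ ?_ <;> linarith
  -- choice of the signs
  have hT : ∀ a : G, ∃ t : ℝ, (t = f a ∨ t = -f a) ∧ |f (a - g) - FS1_N W (t - γ)| ≤ C ∧
      |f (a + g) - FS1_N W (t + γ)| ≤ C := by
    intro a
    rcases LFS_law W C hW G f hf law a g (f a) (f g) (Or.inl rfl) (Or.inl rfl) with h | h
    · exact ⟨f a, Or.inl rfl, h⟩
    · refine ⟨-f a, Or.inr rfl, ?_, ?_⟩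
      · have e : FS1_N W (-f a - γ) = FS1_N W (f a + f g) := by
          rw [← FS1_N_neg W hW (f a + f g)]
          congr 1
          rw [hγdef]
          ring
        rw [e]
        exact h.2
      · have e : FS1_N W (-f a + γ) = FS1_N W (f a - f g) := by
          rw [← FS1_N_neg W hW (f a - f g)]
          congr 1
          rw [hγdef]
          ring
        rw [e]
        exact h.1
  choose T hTs hTm hTp using hT
  have hTN : ∀ a : G, FS1_N W (T a) = f a := by
    intro a
    have h1 : FS1_N W (f a) = f a := by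
      rw [FS1_N_small W hW (f a) (by rw [abs_of_nonneg (hf a).1]; exact (hf a).2),
        abs_of_nonneg (hf a).1]
    rcases hTs a with h | h
    · rw [h, h1]
    · rw [h, FS1_N_neg W hW, h1]
  -- Q
  have hQp : ∀ b : G, FS1_N W (T (b + g) - (T b + γ)) ≤ 3 * C := by
    intro b
    have h1 : |FS1_N W (T (b + g)) - FS1_N W (T b + γ)| ≤ C := by
      rw [hTN]
      exact hTp b
    have h2 : |FS1_N W (T (b + g) + -γ) - FS1_N W (T b + γ + -γ)| ≤ C := by
      have e1 : T b + γ + -γ = T b := by ring
      have h3 := hTm (b + g)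
      have e2 : b + g - g = b := by abel
      rw [e2] at h3
      rw [e1, hTN b, ← sub_eq_add_neg, abs_sub_comm]
      exact h3
    have h3 : C + C < FS1_N W (2 * -γ) := by
      have e3 : 2 * -γ = -(2 * γ) := by ring
      rw [e3, FS1_N_neg W hW]
      linarith
    have h4 := FS1_det W hW (T (b + g)) (T b + γ) (-γ) C C h1 h2 h3
    linarith
  have hQm : ∀ b : G, FS1_N W (T (b - g) - (T b - γ)) ≤ 3 * C := by
    intro b
    have h1 : |FS1_N W (T (b - g)) - FS1_N W (T b - γ)| ≤ C := by
      rw [hTN]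
      exact hTm b
    have h2 : |FS1_N W (T (b - g) + γ) - FS1_N W (T b - γ + γ)| ≤ C := by
      have e1 : T b - γ + γ = T b := by ring
      have h3 := hTp (b - g)
      have e2 : b - g + g = b := by abel
      rw [e2] at h3
      rw [e1, hTN b, abs_sub_comm]
      exact h3
    have h3 : C + C < FS1_N W (2 * γ) := by linarith
    have h4 := FS1_det W hW (T (b - g)) (T b - γ) γ C C h1 h2 h3
    linarith
  have hlaw : ∀ a b : G,
      (|f (a - b) - FS1_N W (T a - T b)| ≤ C ∧ |f (a + b) - FS1_N W (T a + T b)| ≤ C) ∨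
      (|f (a + b) - FS1_N W (T a - T b)| ≤ C ∧ |f (a - b) - FS1_N W (T a + T b)| ≤ C) :=
    fun a b => LFS_law W C hW G f hf law a b (T a) (T b) (hTs a) (hTs b)
  -- P
  have hP : ∀ a b : G, |f (a + b) - FS1_N W (T a + T b)| ≤ 9 * C := by
    intro a b
    rcases hlaw a b with ⟨_, h2⟩ | ⟨h1, h2⟩
    · linarith
    · -- exchanged alternative; first : (a + g, b - g)
      have s1 : FS1_N W (T (a + g) - T (b - g) - (T a - T b + 2 * γ)) ≤ 6 * C := by
        have h := FS1_N_add W hW (T (a + g) - (T a + γ)) (-(T (b - g) - (T b - γ)))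
        have e : T (a + g) - (T a + γ) + -(T (b - g) - (T b - γ)) =
            T (a + g) - T (b - g) - (T a - T b + 2 * γ) := by ring
        rw [e, FS1_N_neg W hW] at h
        linarith [hQp a, hQm b]
      have s2 : FS1_N W (T (a + g) + T (b - g) - (T a + T b)) ≤ 6 * C := by
        have h := FS1_N_add W hW (T (a + g) - (T a + γ)) (T (b - g) - (T b - γ))
        have e : T (a + g) - (T a + γ) + (T (b - g) - (T b - γ)) =
            T (a + g) + T (b - g) - (T a + T b) := by ring
        rw [e] at h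
        linarith [hQp a, hQm b]
      have L1 := hlaw (a + g) (b - g)
      have eL1 : a + g + (b - g) = a + b := by abel
      rw [eL1] at L1
      rcases FS1_shift W C hW _ _ _ _ _ _ L1 s1 s2 with A1 | A1
      · linarith
      -- second : (a - g, b + g)
      have s3 : FS1_N W (T (a - g) - T (b + g) - (T a - T b + 2 * -γ)) ≤ 6 * C := by
        have h := FS1_N_add W hW (T (a - g) - (T a - γ)) (-(T (b + g) - (T b + γ)))
        have e : T (a - g) - (T a - γ) + -(T (b + g) - (T b + γ)) =
            T (a - g) - T (b + g) - (T a - T b + 2 * -γ) := by ring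
        rw [e, FS1_N_neg W hW] at h
        linarith [hQm a, hQp b]
      have s4 : FS1_N W (T (a - g) + T (b + g) - (T a + T b)) ≤ 6 * C := by
        have h := FS1_N_add W hW (T (a - g) - (T a - γ)) (T (b + g) - (T b + γ))
        have e : T (a - g) - (T a - γ) + (T (b + g) - (T b + γ)) =
            T (a - g) + T (b + g) - (T a + T b) := by ring
        rw [e] at h
        linarith [hQm a, hQp b]
      have L2 := hlaw (a - g) (b + g)
      have eL2 : a - g + (b + g) = a + b := by abel
      rw [eL2] at L2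
      rcases FS1_shift W C hW _ _ _ _ _ _ L2 s3 s4 with A2 | A2
      · linarith
      -- third : (a + g, b + g)
      have s5 : FS1_N W (T (a + g) - T (b + g) - (T a - T b)) ≤ 6 * C := by
        have h := FS1_N_add W hW (T (a + g) - (T a + γ)) (-(T (b + g) - (T b + γ)))
        have e : T (a + g) - (T a + γ) + -(T (b + g) - (T b + γ)) =
            T (a + g) - T (b + g) - (T a - T b) := by ring
        rw [e, FS1_N_neg W hW] at h
        linarith [hQp a, hQp b]
      have s6 : FS1_N W (T (a + g) + T (b + g) - (T a + T b + 2 * γ)) ≤ 6 * C := by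
        have h := FS1_N_add W hW (T (a + g) - (T a + γ)) (T (b + g) - (T b + γ))
        have e : T (a + g) - (T a + γ) + (T (b + g) - (T b + γ)) =
            T (a + g) + T (b + g) - (T a + T b + 2 * γ) := by ring
        rw [e] at h
        linarith [hQp a, hQp b]
      have L3 := hlaw (a + g) (b + g)
      have eL3 : a + g - (b + g) = a - b := by abel
      rw [eL3] at L3
      rcases FS1_shift W C hW _ _ _ _ _ _ (L3.imp And.symm And.symm) s6 s5 with A3 | A3
      · -- f (a - b) close to N (T a - T b)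
        have h3 := abs_sub_le (f (a + b)) (FS1_N W (T a - T b)) (f (a - b))
        rw [abs_sub_comm (FS1_N W (T a - T b)) (f (a - b))] at h3
        have h4 := abs_sub_le (f (a + b)) (f (a - b)) (FS1_N W (T a + T b))
        linarith
      -- contradiction or closeness
      by_cases hsep : |FS1_N W (T a + T b) - FS1_N W (T a - T b)| ≤ 8 * C
      · have h3 := abs_sub_le (f (a + b)) (FS1_N W (T a - T b)) (FS1_N W (T a + T b))
        rw [abs_sub_comm (FS1_N W (T a - T b)) (FS1_N W (T a + T b))] at h3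
        linarith
      · exfalso
        have hγ' : 62 * C < FS1_N W (2 * -γ) := by
          have e3 : 2 * -γ = -(2 * γ) := by ring
          rw [e3, FS1_N_neg W hW]
          exact hγ
        have B1 := FS1_two W C hW hC (T a - T b) γ (f (a + b)) h1 A1 hγ
        have B2 := FS1_two W C hW hC (T a - T b) (-γ) (f (a + b)) h1 A2 hγ'
        have B3 := FS1_two W C hW hC (T a + T b) γ (f (a - b)) h2 A3 hγ
        have e2 : 2 * (T a - T b) + 2 * -γ = 2 * (T a - T b) - 2 * γ := by ring
        rw [e2] at B2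
        exact FS1_contra W C hW hC (T a) (T b) γ B1 B2 B3 (not_le.mp hsep) hγ
  -- additivity
  refine ⟨T, hTs, fun a b => ?_⟩
  have h1 : |FS1_N W (T (a + b)) - FS1_N W (T a + T b)| ≤ 9 * C := by
    rw [hTN]
    exact hP a b
  have h2 : |FS1_N W (T (a + b) + γ) - FS1_N W (T a + T b + γ)| ≤ 13 * C := by
    have h3 := hTp (a + b)
    have h4 := hP a (b + g)
    have e4 : a + (b + g) = a + b + g := by abel
    rw [e4] at h4
    have h5 := FS1_N_sub W hW (T a + T (b + g)) (T a + T b + γ)
    have e5 : T a + T (b + g) - (T a + T b + γ) = T (b + g) - (T b + γ) := by ring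
    rw [e5] at h5
    have h6 := hQp b
    have h7 := abs_sub_le (FS1_N W (T (a + b) + γ)) (f (a + b + g)) (FS1_N W (T a + T b + γ))
    have h8 := abs_sub_le (f (a + b + g)) (FS1_N W (T a + T (b + g))) (FS1_N W (T a + T b + γ))
    rw [abs_sub_comm (FS1_N W (T (a + b) + γ)) (f (a + b + g))] at h7
    linarith
  have h3 := FS1_det W hW (T (a + b)) (T a + T b) γ (9 * C) (13 * C) h1 h2 (by linarith)
  obtain ⟨m, hm⟩ := FS1_N_ex W (T (a + b) - (T a + T b))
  refine ⟨m, ?_⟩
  rw [hm] at h3
  have e : T (a + b) - T a - T b - (m : ℝ) * W = T (a + b) - (T a + T b) - (m : ℝ) * W := by ring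
  rw [e]
  linarith

end Pool.Agent.Helper54.LM
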