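import Pool.Agent.Helper54.LM.Defs
import Pool.Agent.Helper41.LK.CID

/-! # Module LID: identities for `S k = (Y k / Z k) ^ 2`, several points -/

namespace Pool.Agent.Helper54.LM

open Pool.Agent.Helper42.LS Pool.Agent.Helper42.LK

theorem LID_two {m : ℕ} {k : Fin m → ℤ} (h : k + k = 0) : k = 0 := by
  funext i
  have h1 := congrFun h i
  simp only [Pi.add_apply, Pi.zero_apply] at h1 ⊢
  omega

theorem st_LID : ST_LID := by
  intro κ hκ hκ1 m Z Y hG S hS
  have hkk : ∀ k : Fin m → ℤ, k ≠ 0 → k + k ≠ 0 := fun k hk h => hk (LID_two h)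
  have hZ : ∀ k, k ≠ 0 → Z k ≠ 0 := by
    intro k hk h0
    have h1 := hG.curve k hk
    rw [h0] at h1
    exact hG.yne k hk (pow_eq_zero_iff (n := 2) (by norm_num) |>.mp (by rw [h1]; ring))
  have hdbl : ∀ k, k ≠ 0 → Z (k + k) * (4 * Y k ^ 2) = (Z k ^ 2 - 1) ^ 2 := fun k hk =>
    CID_dbl (hG.yne k hk) (hG.curve k hk) (hG.dblx k hk)
  have hZ1 : ∀ k, k ≠ 0 → Z k ^ 2 - 1 ≠ 0 := by
    intro k hk h0
    have h1 := hdbl k hk
    rw [h0] at h1
    have : Z (k + k) * (4 * Y k ^ 2) ≠ 0 :=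
      mul_ne_zero (hZ (k + k) (hkk k hk)) (mul_ne_zero (by norm_num) (pow_ne_zero _ (hG.yne k hk)))
    exact this (by rw [h1]; ring)
  have hn : ∀ k, k ≠ 0 → (Y k / Z k) ^ 2 * Z k = Z k ^ 2 - (2 + κ) * Z k + 1 := fun k hk =>
    CID_n (hZ k hk) (by rw [hG.curve k hk]; ring)
  have hSk : ∀ k, k ≠ 0 → S k = Z k - (2 + κ) + 1 / Z k := by
    intro k hk
    rw [hS k]
    have h1 := hn k hk
    have h2 := hZ k hk
    have h3 : (Y k / Z k) ^ 2 = (Z k ^ 2 - (2 + κ) * Z k + 1) / Z k := by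
      rw [eq_div_iff h2]; exact h1
    rw [h3]
    field_simp
  have hS0 : ∀ k, k ≠ 0 → S k ≠ 0 := by
    intro k hk
    rw [hS k]
    exact pow_ne_zero _ (div_ne_zero (hG.yne k hk) (hZ k hk))
  have hd : ∀ k, k ≠ 0 → (Z k - 1 / Z k) ^ 2 = S k ^ 2 + (4 + 2 * κ) * S k + κ * (4 + κ) := by
    intro k hk
    rw [hS k]
    exact CID_d (hZ k hk) (hn k hk)
  have hd0 : ∀ k, k ≠ 0 → Z k - 1 / Z k ≠ 0 := by
    intro k hk h0
    apply hZ1 k hk
    have h2 := hZ k hk
    field_simp at h0
    linear_combination h0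
  have hdbl2 : ∀ k, k ≠ 0 → Z (k + k) * (4 * S k) = (Z k - 1 / Z k) ^ 2 := by
    intro k hk
    have h2 := hZ k hk
    have h3 := hdbl k hk
    rw [hS k]
    field_simp
    linear_combination h3
  have hfac : ∀ k, k ≠ 0 → (S k + κ) * (S k + 4 + κ) = (Z k - 1 / Z k) ^ 2 := by
    intro k hk
    rw [hd k hk]; ring
  refine ⟨fun k hk => ⟨hZ k hk, hS0 k hk, ?_, ?_, hdbl k hk, ?_⟩, ?_⟩
  · intro h0
    have h1 := hfac k hk
    rw [h0, zero_mul] at h1
    exact pow_ne_zero 2 (hd0 k hk) h1.symm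
  · intro h0
    have h1 := hfac k hk
    rw [h0, mul_zero] at h1
    exact pow_ne_zero 2 (hd0 k hk) h1.symm
  · have h1 := hSk (k + k) (hkk k hk)
    have h2 := hdbl2 k hk
    have h3 := hd k hk
    have h4 := hZ (k + k) (hkk k hk)
    have h5 : S (k + k) * Z (k + k) = Z (k + k) ^ 2 - (2 + κ) * Z (k + k) + 1 := by
      rw [h1]; field_simp
    have h6 := hfac k hk
    rw [← h2] at h3 h6
    have h7 : S (k + k) * (4 * S k * (S k + κ) * (S k + 4 + κ)) =
        16 * S k ^ 2 * (S (k + k) * Z (k + k)) := by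
      linear_combination S (k + k) * 4 * S k * h6
    rw [h7, h5]
    linear_combination (Z (k + k) * (4 * S k) + S k ^ 2 - (4 + 2 * κ) * S k + κ * (4 + κ)) * h3
  · intro k l hk hl hkl hkl'
    have hD : Z k - Z l ≠ 0 := sub_ne_zero.mpr (hG.xne k l hk hl hkl hkl')
    have hadd : k + l ≠ 0 := fun h => hkl' (eq_neg_of_add_eq_zero_left h)
    have hsub : k + -l ≠ 0 := fun h => hkl (by
      have := eq_neg_of_add_eq_zero_left h
      rwa [neg_neg] at this)
    have hne : S k ≠ S l := by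
      intro h0
      rw [hSk k hk, hSk l hl] at h0
      have hk2 := hZ k hk
      have hl2 := hZ l hl
      have h1 : (Z k - Z l) * (Z k * Z l - 1) = 0 := by
        field_simp at h0
        linear_combination h0
      rcases mul_eq_zero.mp h1 with h2 | h2
      · exact hD h2
      · have h3 : 1 / Z k = Z l := by
          field_simp
          linear_combination -h2
        have h4 : 1 / Z l = Z k := by
          field_simp
          linear_combination -h2
        have h5 := hdbl2 k hk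
        have h6 := hdbl2 l hl
        have h7 : S k = S l := by
          rw [hSk k hk, hSk l hl, h3, h4]; ring
        rw [h3, h7] at h5
        rw [h4] at h6
        have h8 : Z (k + k) * (4 * S l) = Z (l + l) * (4 * S l) := by
          rw [h5, h6]; ring
        refine hG.xne (k + k) (l + l) (hkk k hk) (hkk l hl) (fun h => hkl ?_) (fun h => hkl' ?_)
          (mul_right_cancel₀ (mul_ne_zero (by norm_num) (hS0 l hl)) h8)
        · exact sub_eq_zero.1 (LID_two (by
            rw [show k - l + (k - l) = (k + k) - (l + l) by abel, h, sub_self]))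
        · exact eq_neg_of_add_eq_zero_left (LID_two (by
            rw [show k + l + (k + l) = (k + k) + (l + l) by abel, h, neg_add_cancel]))
    have hYk : Y k = (Y k / Z k) * Z k := (div_mul_cancel₀ _ (hZ k hk)).symm
    have hYl : Y l = (Y l / Z l) * Z l := (div_mul_cancel₀ _ (hZ l hl)).symm
    have hp : Y (k + l) / Z (k + l) * (S k - S l) =
        (Y l / Z l) * (Z k - 1 / Z k) - (Y k / Z k) * (Z l - 1 / Z l) := by
      rw [hS k, hS l]
      refine CID_add (hZ k hk) (hZ l hl) hD (hn k hk) (hn l hl) ?_ ?_ (hZ (k + l) hadd)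
      · rw [← hYk, ← hYl, hG.addx k l hk hl hkl hkl']; ring
      · rw [← hYk, ← hYl]; exact hG.addy k l hk hl hkl hkl' 
    have hm : Y (k - l) / Z (k - l) * (S k - S l) =
        -(Y l / Z l) * (Z k - 1 / Z k) - (Y k / Z k) * (Z l - 1 / Z l) := by
      rw [hS k, hS l]
      have h1 := CID_add (κ := κ) (n1 := Y k / Z k) (n2 := -(Y l / Z l)) (hZ k hk) (hZ l hl) hD
        (hn k hk) (by rw [neg_sq]; exact hn l hl) (X3 := Z (k - l)) (Y3 := Y (k - l))
        (by
          rw [neg_mul, ← hYk, ← hYl, sub_eq_add_neg k l,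
            hG.addx k (-l) hk (neg_ne_zero.2 hl) hkl' (by rwa [neg_neg]), hG.negx l hl,
            hG.negy l hl]
          ring)
        (by
          rw [neg_mul, ← hYk, ← hYl, sub_eq_add_neg k l,
            hG.addy k (-l) hk (neg_ne_zero.2 hl) hkl' (by rwa [neg_neg]), hG.negx l hl,
            hG.negy l hl])
        (by rw [sub_eq_add_neg]; exact hZ (k + -l) hsub)
      rw [neg_sq] at h1
      exact h1
    have hp2 : S (k + l) * (S k - S l) ^ 2 =
        ((Y l / Z l) * (Z k - 1 / Z k) - (Y k / Z k) * (Z l - 1 / Z l)) ^ 2 := by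
      rw [← hp, hS (k + l)]; ring
    have hm2 : S (k - l) * (S k - S l) ^ 2 =
        (-(Y l / Z l) * (Z k - 1 / Z k) - (Y k / Z k) * (Z l - 1 / Z l)) ^ 2 := by
      rw [← hm, hS (k - l)]; ring
    have h1 := hd k hk
    have h2 := hd l hl
    have h3 := (hS k).symm
    have h4 := (hS l).symm
    generalize Z k - 1 / Z k = d1 at *
    generalize Z l - 1 / Z l = d2 at *
    generalize Y k / Z k = n1 at *
    generalize Y l / Z l = n2 at *
    refine ⟨hne, ?_, ?_⟩
    · have h5 : (S (k + l) + S (k - l)) * (S k - S l) ^ 2 =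
          2 * (n2 ^ 2 * d1 ^ 2 + n1 ^ 2 * d2 ^ 2) := by
        linear_combination hp2 + hm2
      rw [h5, h3, h4, h1, h2]
      ring
    · have h5 : S (k + l) * S (k - l) * (S k - S l) ^ 2 * (S k - S l) ^ 2 =
          (n2 ^ 2 * d1 ^ 2 - n1 ^ 2 * d2 ^ 2) ^ 2 := by
        have h6 : S (k + l) * S (k - l) * (S k - S l) ^ 2 * (S k - S l) ^ 2 =
          (S (k + l) * (S k - S l) ^ 2) * (S (k - l) * (S k - S l) ^ 2) := by ring
        rw [h6, hp2, hm2]
        ring
      have h7 : (S k - S l) ^ 2 ≠ 0 := pow_ne_zero _ (sub_ne_zero.mpr hne)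
      apply mul_right_cancel₀ h7
      rw [h5, h3, h4, h1, h2]
      ring

end Pool.Agent.Helper54.LM

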